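import Pool.Agent.H18.XX.TA
import Pool.Agent.H32.IP.SYX

/-!
# Row SYR of the board `exh_modules`: the copies say the bit with overwhelming probability
-/

set_option autoImplicit false

namespace Pool.Agent.H44.XX

open Finset Pool.Agent.H6.NB Pool.Agent.H70.EH Pool.Agent.H78.XQ Pool.Agent.H18.XX

theorem pf_SYR (hCHA : Pool.Agent.H70.EH.T_CHA) (hPHV : Pool.Agent.H70.EH.T_PHV)
    (hMUV : Pool.Agent.H70.EH.T_MUV) (hPHB : Pool.Agent.H6.NB.T_PHB)
    (hPHU : Pool.Agent.H6.NB.T_PHU) : T_SYR := by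
  classical
  intro r l q R n hS b
  have hl : 128000 ≤ l := by
    refine le_trans ?_ hS.l_ge
    have h1 : 20 ^ 3 ≤ r ^ 3 := Nat.pow_le_pow_left hS.r_ge 3
    omega
  cases b with
  | false =>
    have h1 := Pool.Agent.H3.XQ.chx_false hCHA hMUV hPHB hPHU q l hS.q_eq
    have h3 : (2 : ℝ) ^ (2 * l) * (1 / 2 ^ l) / 2 = 2 ^ l / 2 := by
      rw [two_mul, pow_add]
      field_simp
    rw [h3] at h1
    refine le_trans (le_of_eq (sum_congr rfl fun P _ => ?_)) h1
    by_cases h : SayX q l false P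
    · simp [h]
    · simp [h]
  | true =>
    have h1 := Pool.Agent.H17.EH.che hCHA hPHV hMUV hPHB hPHU (Fin (2 * l) → Bool) q true
      (by rw [hS.q_eq]; omega)
    have hcard : (Fintype.card (Fin (2 * l) → Bool) : ℝ) = 2 ^ (2 * l) := by
      rw [Fintype.card_fun, Fintype.card_bool, Fintype.card_fin]; push_cast; ring
    rw [hcard] at h1
    have h2 : (2 : ℝ) ^ l / 2 ≤ 2 ^ (2 * l) * eps2 q ^ 2 / 64 := by
      unfold eps2
      have h3 : (2 : ℝ) ^ (2 * l) * (1 / (8 * ((q : ℝ) + 3))) ^ 2 / 64 =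
          2 ^ (2 * l) / (4096 * ((q : ℝ) + 3) ^ 2) := by
        field_simp
        norm_num
      rw [h3, le_div_iff₀ (by positivity)]
      have h4 := Pool.Agent.H32.IP.syx_pow l (by omega)
      have h6 : q + 3 ≤ 11 * l := by rw [hS.q_eq]; omega
      have h7 : 2048 * (q + 3) ^ 2 ≤ 2 ^ l := by
        calc 2048 * (q + 3) ^ 2 ≤ 2048 * (11 * l) ^ 2 :=
              Nat.mul_le_mul_left _ (Nat.pow_le_pow_left h6 2)
          _ = 247808 * l ^ 2 := by ring
          _ ≤ (128000 * 128000) * l ^ 2 := Nat.mul_le_mul_right _ (by norm_num)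
          _ ≤ (l * l) * l ^ 2 := Nat.mul_le_mul_right _ (Nat.mul_le_mul hl hl)
          _ = l ^ 4 := by ring
          _ ≤ 2 ^ l := h4
      have h8 : (2048 : ℝ) * ((q : ℝ) + 3) ^ 2 ≤ 2 ^ l := by exact_mod_cast h7
      calc (2 : ℝ) ^ l / 2 * (4096 * ((q : ℝ) + 3) ^ 2) =
            2 ^ l * (2048 * ((q : ℝ) + 3) ^ 2) := by ring
        _ ≤ 2 ^ l * 2 ^ l := mul_le_mul_of_nonneg_left h8 (by positivity)
        _ = 2 ^ (2 * l) := by rw [two_mul, pow_add]
    refine le_trans (le_of_eq (sum_congr rfl fun P _ => ?_))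
      (h1.trans (Real.exp_le_exp.2 (by linarith)))
    by_cases h : SayX q l true P
    · rw [if_pos h, if_pos ((Pool.Agent.H3.XQ.sayX_true q l P).1 h)]
    · rw [if_neg h, if_neg fun h' => h ((Pool.Agent.H3.XQ.sayX_true q l P).2 h')]

end Pool.Agent.H44.XX
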